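import Pool.Agent.Helper77.RL.Goals3
import Pool.Agent.Helper2.RL.EF1
import Pool.Agent.Helper42.RD.VAL
import Pool.Agent.Helper95.RL.SUB

/-!
# Packet RL-ADM (MP_fc6b1e_nt): the extension of `X_LEX` is admissible
-/

namespace Pool.Agent.Helper56.RL

open NumberField Polynomial Module IsDedekindDomain
open Pool.Agent.Helper51.SigLeo Pool.Agent.Helper51.RP Pool.Agent.Helper77.RL
open Pool.Agent.Helper42.RD (wt wt_p)
open Pool.Agent.Helper49.RSV (PI mem_PI)
open Pool.Agent.Helper40.RS (bel gw gw_inj efg bel_smul lies val_smul)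
open Pool.Agent.Helper40.RD (valW ordW bel_of_above)
open scoped Pointwise

section norm

variable {k : Type} [NormedField k] [IsUltrametricDist k]
variable (p : ℕ) [Fact p.Prime] [NormedAlgebra ℚ_[p] k]

/-- An automorphism which preserves the norms of an embedding preserves the valuation of its prime. -/
theorem wt_pres {K L : Type} [Field K] [NumberField K] [Field L] [NumberField L] [Algebra K L]
    [IsGalois K L] (s : L →+* k) (g : L ≃ₐ[K] L) (hg : ∀ x : L, ‖s (g x)‖ = ‖s x‖) (y : L) :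
    (wt p s).valuation L (g y) = (wt p s).valuation L y := by
  apply val_smul
  ext x
  rw [Ideal.mem_pointwise_smul_iff_inv_smul_mem]
  have e1 : ∀ z : 𝓞 L, z ∈ (wt p s).asIdeal ↔ ‖s (z : L)‖ < 1 := fun z => mem_PI s z
  rw [e1, e1]
  have e2 : ((g⁻¹ • x : 𝓞 L) : L) = (g⁻¹ : L ≃ₐ[K] L) (x : L) := rfl
  rw [e2, ← hg ((g⁻¹ : L ≃ₐ[K] L) (x : L))]
  have e3 : g ((g⁻¹ : L ≃ₐ[K] L) (x : L)) = x := AlgEquiv.apply_symm_apply g (x : L)
  rw [e3]

end norm

/-- A prime above `v`: the valuation of `x` is less than `1` iff this holds at `v`. -/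
theorem lt_one_of_above {K L : Type} [Field K] [NumberField K] [Field L] [NumberField L]
    [Algebra K L] {V : HeightOneSpectrum (𝓞 L)} {v : HeightOneSpectrum (𝓞 K)} (h : Above V v)
    (x : 𝓞 K) (hx : V.valuation L (algebraMap K L (x : K)) < 1) : v.valuation K (x : K) < 1 := by
  have e1 : V.valuation L (algebraMap (𝓞 L) L (algebraMap (𝓞 K) (𝓞 L) x)) < 1 := hx
  rw [HeightOneSpectrum.valuation_lt_one_iff_mem] at e1
  refine (v.valuation_lt_one_iff_mem (K := K) x).2 ?_
  rw [← h]
  exact e1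

theorem x_adm : X_ADM := by
  intro p hp n K _ _ M _ _ R L _ hG hd h1 h2 T χ₀
  have hle : ∀ v : HeightOneSpectrum (𝓞 K), v.valuation K (p : K) ≤ 1 := by
    intro v
    have h := v.valuation_le_one (K := K) (p : 𝓞 K)
    have e : ((p : 𝓞 K) : K) = p := map_natCast (algebraMap (𝓞 K) K) p
    have h4 : v.valuation K ((p : 𝓞 K) : K) ≤ 1 := h
    rwa [e] at h4
  refine ⟨hG, ⟨n, hd⟩, fun v hv => h1 v (Or.inl hv), ?_, ?_⟩
  · intro v hv hT hw V hV x
    rcases lt_or_eq_of_le (hle v) with hlt | heq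
    · have hf := h1 v (Or.inr hlt) V hV
      have hef := Pool.Agent.Helper2.RL.ef_free (K := K) V hf
      obtain rfl := bel_of_above hV
      rw [ordW, Ideal.ramificationIdx'_eq_ramificationIdx _ _ (bel K V).ne_bot,
        Nat.eq_one_of_mul_eq_one_right hef]
      simp
    · exact h2 v hv heq hw V hV x
  · intro σ hσ
    left
    intro τ hτ g hg
    set s : L →+* ℂ_[p] := τ.comp (algebraMap L (AlgebraicClosure K)) with hs
    obtain ⟨v, hv⟩ := Pool.Agent.Helper95.RL.exists_below (M := K) (wt p s)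
    have hp1 : v.valuation K (p : K) < 1 := by
      have e : ((p : 𝓞 K) : K) = p := map_natCast (algebraMap (𝓞 K) K) p
      have h3 := lt_one_of_above hv (p : 𝓞 K) (by
        rw [e, map_natCast]
        exact wt_p p s)
      rwa [e] at h3
    exact h1 v (Or.inr hp1) (wt p s) hv g (fun y => wt_pres p s g (fun x => hg x) y)

end Pool.Agent.Helper56.RL
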