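import Pool.Agent.Helper77.RL.Goals

/-!
# Elements close to roots of unity (goal L_ROU of project RL)
-/

namespace Pool.Agent.Helper56.RL

open Polynomial Finset Pool.Agent.Helper77.RL

section

variable {k F : Type} [NormedField k] [Field F] (τ : F →+* k)

/-- A root of unity has norm one. -/
theorem norm_root {q : ℕ} (hq : q ≠ 0) {ξ : F} (h : ξ ^ q = 1) : ‖τ ξ‖ = 1 := by
  have h1 : ‖τ ξ‖ ^ q = 1 := by
    rw [← norm_pow, ← map_pow, h, map_one, norm_one]
  exact (pow_eq_one_iff_of_nonneg (norm_nonneg _) hq).mp h1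

variable [IsUltrametricDist k]

/-- An element close to an element of norm one has norm one. -/
theorem norm_close {ε : ℝ} (hε : ε < 1) {x y : F} (hy : ‖τ y‖ = 1) (h : ‖τ (x - y)‖ ≤ ε) :
    ‖τ x‖ = 1 := by
  have hne : ‖τ (x - y)‖ ≠ ‖τ y‖ := by
    rw [hy]
    exact (lt_of_le_of_lt h hε).ne
  have h1 := IsUltrametricDist.norm_add_eq_max_of_norm_ne_norm hne
  rw [← map_add, sub_add_cancel, hy] at h1
  rw [h1]
  exact max_eq_right (h.trans hε.le)

/-- Powers of close elements of norm one are close. -/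
theorem pow_close {ε : ℝ} {x y : F} (hx : ‖τ x‖ = 1) (hy : ‖τ y‖ = 1)
    (h : ‖τ (x - y)‖ ≤ ε) (hε : 0 ≤ ε) (i : ℕ) : ‖τ (x ^ i - y ^ i)‖ ≤ ε := by
  induction i with
  | zero => simpa using hε
  | succ i ih =>
    have e : x ^ (i + 1) - y ^ (i + 1) = (x ^ i - y ^ i) * x + y ^ i * (x - y) := by ring
    rw [e, map_add]
    refine (IsUltrametricDist.norm_add_le_max _ _).trans (max_le ?_ ?_)
    · rw [map_mul, norm_mul, hx, mul_one]
      exact ih
    · rw [map_mul, norm_mul, map_pow, norm_pow, hy, one_pow, one_mul]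
      exact h

/-- Quotients of close elements of norm one are close. -/
theorem div_close {ε : ℝ} {a b c d : F} (hb : ‖τ b‖ = 1) (hd : ‖τ d‖ = 1) (hc : ‖τ c‖ = 1)
    (h1 : ‖τ (a - c)‖ ≤ ε) (h2 : ‖τ (b - d)‖ ≤ ε) : ‖τ (a / b - c / d)‖ ≤ ε := by
  have hb0 : b ≠ 0 := by
    rintro rfl
    rw [map_zero, norm_zero] at hb
    exact zero_ne_one hb
  have hd0 : d ≠ 0 := by
    rintro rfl
    rw [map_zero, norm_zero] at hd
    exact zero_ne_one hd
  have e : a / b - c / d = ((a - c) * d + -(c * (b - d))) / (b * d) := by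
    field_simp
    ring
  rw [e, map_div₀, norm_div, map_mul, norm_mul, hb, hd, mul_one, div_one, map_add]
  refine (IsUltrametricDist.norm_add_le_max _ _).trans (max_le ?_ ?_)
  · rw [map_mul, norm_mul, hd, mul_one]
    exact h1
  · rw [map_neg, norm_neg, map_mul, norm_mul, hc, one_mul]
    exact h2

end

theorem l_rou : L_ROU := by
  intro p hp k _ _ F _ τ b i hb hξ s hs hsi ε hε0 hε1 Z hZ0 hZ
  obtain ⟨ξ₀, hξ₀⟩ := hξ
  have hp0 : p.Prime := hp.out
  have hq0 : 0 < p ^ b := pow_pos hp0.pos b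
  have : NeZero (p ^ b) := ⟨hq0.ne'⟩
  -- the exponent of `s`
  obtain ⟨i', -, hi'⟩ := hξ₀.eq_pow_of_pow_eq_one (ξ := s ξ₀) (by
    rw [← map_pow, hξ₀.pow_eq_one, map_one])
  have hsξ : ∀ ξ : F, ξ ^ p ^ b = 1 → s ξ = ξ ^ i' := by
    intro ξ h
    obtain ⟨a, -, rfl⟩ := hξ₀.eq_pow_of_pow_eq_one h
    rw [map_pow, ← hi', ← pow_mul, ← pow_mul, mul_comm]
  have hmod : i' ≡ i [MOD p] := by
    have h1 : IsPrimitiveRoot (ξ₀ ^ p ^ (b - 1)) p := by
      refine hξ₀.pow hq0 ?_
      rw [← pow_succ]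
      congr 1
      omega
    have h2 := hsi _ h1.pow_eq_one
    rw [hsξ _ (by
      rw [← pow_mul, mul_comm, pow_mul, hξ₀.pow_eq_one, one_pow])] at h2
    rw [pow_eq_pow_mod i' h1.pow_eq_one, pow_eq_pow_mod i h1.pow_eq_one] at h2
    exact h1.pow_inj (Nat.mod_lt _ hp0.pos) (Nat.mod_lt _ hp0.pos) h2
  -- the first root of unity
  have hstart : ∃ ξ : F, ξ ^ p ^ b = 1 ∧ ‖τ (Z 0 - ξ)‖ ≤ ε := by
    by_contra hcon
    push Not at hcon
    have hprod := hξ₀.pow_sub_pow_eq_prod_sub_mul (Z 0) 1 hq0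
    rw [one_pow] at hprod
    have h1 : ε ^ p ^ b < ‖τ (Z 0 ^ p ^ b - 1)‖ := by
      rw [hprod, map_prod, norm_prod]
      have h2 : ε ^ p ^ b = ∏ _ζ ∈ nthRootsFinset (p ^ b) (1 : F), ε := by
        rw [Finset.prod_const, hξ₀.card_nthRootsFinset]
      rw [h2]
      refine Finset.prod_lt_prod_of_nonempty (fun _ _ => hε0) ?_ ?_
      · intro ζ hζ
        rw [mul_one]
        exact hcon ζ ((mem_nthRootsFinset hq0 _).mp hζ)
      · exact ⟨1, (mem_nthRootsFinset hq0 _).mpr (one_pow _)⟩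
    exact absurd hZ0 (not_le.mpr h1)
  -- the induction
  have hind : ∀ j, j ≤ b → ∃ ξ : F, ξ ^ p ^ (b - j) = 1 ∧ ‖τ (Z j - ξ)‖ ≤ ε := by
    intro j
    induction j with
    | zero =>
      intro _
      simpa using hstart
    | succ j ih =>
      intro hj
      obtain ⟨ξ, h1, h2⟩ := ih (by omega)
      have hξ1 : ξ ^ p ^ b = 1 := by
        have e : p ^ b = p ^ (b - j) * p ^ j := by
          rw [← pow_add]
          congr 1
          omega
        rw [e, pow_mul, h1, one_pow]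
      have n1 : ‖τ ξ‖ = 1 := norm_root τ hq0.ne' hξ1
      have n2 : ‖τ (Z j)‖ = 1 := norm_close τ hε1 n1 h2
      refine ⟨s ξ / ξ ^ i, ?_, ?_⟩
      · have hξ0 : ξ ≠ 0 := by
          rintro rfl
          rw [map_zero, norm_zero] at n1
          exact zero_ne_one n1
        rw [hsξ ξ hξ1, div_pow, ← pow_mul, ← pow_mul]
        have e : p ^ (b - j) = p * p ^ (b - (j + 1)) := by
          rw [← pow_succ']
          congr 1
          omega
        have h3 : i' * p ^ (b - (j + 1)) ≡ i * p ^ (b - (j + 1)) [MOD p ^ (b - j)] := by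
          rw [e]
          exact Nat.ModEq.mul_right' _ hmod
        rw [pow_eq_pow_of_modEq h3 h1]
        exact div_self (pow_ne_zero _ hξ0)
      · rw [hZ j]
        refine div_close τ ?_ ?_ ?_ ?_ ?_
        · rw [map_pow, norm_pow, n2, one_pow]
        · rw [map_pow, norm_pow, n1, one_pow]
        · rw [hs, n1]
        · rw [← map_sub, hs]
          exact h2
        · exact pow_close τ n2 n1 h2 hε0.le i
  obtain ⟨ξ, h1, h2⟩ := hind b le_rfl
  rw [Nat.sub_self, pow_zero, pow_one] at h1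
  rw [h1] at h2
  exact h2

end Pool.Agent.Helper56.RL
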