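import Pool.Agent.Helper18.RL.Goals

set_option autoImplicit false
set_option linter.unusedSectionVars false

namespace Pool.Agent.Helper56.RL

open Finset Pool.Agent.Helper37.RG3 Pool.Agent.Helper18.RL

variable {V : Type} [Fintype V] [DecidableEq V]

/-- indicator -/
def ind (m : V → V) (K : Finset V) (v : V) : ℕ := if m v ∈ K then 1 else 0

theorem card_single (m : V → V) (K : Finset V) (v : V) :
    (({v} : Finset V).filter fun x => m x ∈ K).card = ind m K v := by
  unfold ind
  split_ifs with h
  · rw [filter_true_of_mem (by simpa using h), card_singleton]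
  · rw [filter_false_of_mem (by simpa using h), card_empty]

/-- the crossing edges of `K` go to `a, b, c` -/
theorem cr_eq {U K Y : Finset V} {w : V → V → ℕ} {r : ℕ} {a b c : V} (h : RG U w r)
    (hS : Sep U w K Y a b c) {m : V → V} (hm : PM U w m) :
    cr m K = ind m K a + ind m K b + ind m K c := by
  have hKU : K ⊆ U := by
    intro x hx
    rw [hS.un]
    simp [hx]
  have h1 : cr m K = (({a, b, c} : Finset V).filter fun x => m x ∈ K).card := by
    unfold cr
    refine Finset.card_bij' (fun x _ => m x) (fun x _ => m x) ?_ ?_ ?_ ?_
    · intro x hx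
      rw [mem_filter] at hx ⊢
      have hxU := hKU hx.1
      have hmU := hm.mem h hxU
      have hadj := hm.adj x hxU
      refine ⟨?_, ?_⟩
      · rw [hS.un] at hmU
        simp only [mem_union] at hmU
        rcases hmU with (h2 | h2) | h2
        · exact absurd h2 hx.2
        · exact absurd (hS.zero x hx.1 _ h2) hadj
        · exact h2
      · rw [hm.invol]
        exact hx.1
    · intro x hx
      rw [mem_filter] at hx ⊢
      refine ⟨hx.2, ?_⟩
      rw [hm.invol]
      intro hxK
      have h2 := hx.1
      simp only [mem_insert, mem_singleton] at h2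
      rcases h2 with rfl | rfl | rfl
      · exact hS.aX hxK
      · exact hS.bX hxK
      · exact hS.cX hxK
    · intro x _
      exact hm.invol x
    · intro x _
      exact hm.invol x
  rw [h1]
  have h2 : ({a, b, c} : Finset V) = {a} ∪ ({b} ∪ {c}) := by
    ext x
    simp only [mem_insert, mem_singleton, mem_union]
  have h3 : Disjoint ({b} : Finset V) {c} := by simpa using hS.bc
  have h4 : Disjoint ({a} : Finset V) ({b} ∪ {c}) := by
    simp [hS.ab, hS.ac]
  rw [h2, filter_union, filter_union, card_union_of_disjoint, card_union_of_disjoint,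
    card_single, card_single, card_single]
  · ring
  · exact disjoint_filter_filter h3
  · rw [← filter_union]
    exact disjoint_filter_filter h4

theorem ind_le (m : V → V) (K : Finset V) (v : V) : ind m K v ≤ 1 := by
  unfold ind
  split_ifs <;> simp

theorem ind_eq_zero {m : V → V} {K : Finset V} {v : V} : ind m K v = 0 ↔ m v ∉ K := by
  unfold ind
  split_ifs with h <;> simp [h]

theorem ind_eq_one {m : V → V} {K : Finset V} {v : V} : ind m K v = 1 ↔ m v ∈ K := by
  unfold ind
  split_ifs with h <;> simp [h]

theorem gtye (hC : G_CLS) : G_TYE := by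
  intro V _ _ U K Y w r a b c h hr hNT hS hKe hK2 hY2
  have hKU : K ⊆ U := by
    intro x hx
    rw [hS.un]
    simp [hx]
  have hYU : Y ⊆ U := by
    intro x hx
    rw [hS.un]
    simp [hx]
  have haU : a ∈ U := by rw [hS.un]; simp
  have hbU : b ∈ U := by rw [hS.un]; simp
  have hcU : c ∈ U := by rw [hS.un]; simp
  obtain ⟨k, σ, hk, hPM, _, hsum⟩ := hC V U w r h
  have hcrs := fun i => cr_eq h hS (hPM i)
  have hpar : ∀ i, (ind (σ i) K a + ind (σ i) K b + ind (σ i) K c) % 2 = 0 := by
    intro i
    rw [← hcrs i, cr_parity h (hPM i) hKU]
    exact Nat.even_iff.mp hKe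
  have hsv : ∀ v, v ∈ U → v ∉ K → ∑ i, ind (σ i) K v = k * bt w {v} K := by
    intro v hv hvK
    rw [← hsum {v} K (by simpa using hv) (by simpa using hvK)]
    exact sum_congr rfl fun i _ => (card_single _ _ _).symm
  have hsa := hsv a haU hS.aX
  have hsb := hsv b hbU hS.bX
  have hsc := hsv c hcU hS.cX
  -- cardinalities
  have hcard : U.card = K.card + Y.card + 3 := by
    rw [hS.un, card_union_of_disjoint, card_union_of_disjoint hS.xy, card_eq_three.mpr
      ⟨a, b, c, hS.ab, hS.ac, hS.bc, rfl⟩]
    rw [disjoint_union_left]
    constructor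
    · rw [disjoint_right]
      intro x hx
      simp only [mem_insert, mem_singleton] at hx
      rcases hx with rfl | rfl | rfl
      · exact hS.aX
      · exact hS.bX
      · exact hS.cX
    · rw [disjoint_right]
      intro x hx
      simp only [mem_insert, mem_singleton] at hx
      rcases hx with rfl | rfl | rfl
      · exact hS.aY
      · exact hS.bY
      · exact hS.cY
  have hUe := h.even_card hr
  have hYo : Odd Y.card := by
    rw [Nat.even_iff] at hUe hKe
    rw [Nat.odd_iff]
    omega
  have hY3 : 3 ≤ Y.card := by
    rw [Nat.odd_iff] at hYo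
    omega
  -- union decompositions
  have hdisj : ∀ v, v ∉ K → v ∉ Y → Disjoint ({v} : Finset V) (K ∪ Y) := by
    intro v h1 h2
    simp [h1, h2]
  have hle : ∀ v, v ∈ U → v ∉ K → v ∉ Y → bt w {v} K + bt w {v} Y ≤ r := by
    intro v hv h1 h2
    rw [← bt_union_right w {v} hS.xy]
    exact h.bt_single_le hv _
  constructor
  · -- a class without edges between K and N
    by_cases hex : ∃ i, ind (σ i) K a = 0 ∧ ind (σ i) K b = 0 ∧ ind (σ i) K c = 0
    · obtain ⟨i, h1, h2, h3⟩ := hex
      have hc0 : cr (σ i) K = 0 := by rw [hcrs i, h1, h2, h3]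
      refine ⟨σ i, fun v hv => ⟨?_, (hPM i).invol v, (hPM i).adj v (hKU hv)⟩⟩
      by_contra hvn
      unfold cr at hc0
      rw [card_eq_zero] at hc0
      have : v ∈ K.filter fun x => σ i x ∉ K := mem_filter.mpr ⟨hv, hvn⟩
      rw [hc0] at this
      simp at this
    · exfalso
      push Not at hex
      have hge : ∀ i, 2 ≤ ind (σ i) K a + ind (σ i) K b + ind (σ i) K c := by
        intro i
        have h1 := hpar i
        have h2 := hex i
        have h3 := ind_le (σ i) K a
        have h4 := ind_le (σ i) K b
        have h5 := ind_le (σ i) K c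
        by_contra hlt
        have h6 : ind (σ i) K a = 0 := by omega
        have h7 : ind (σ i) K b = 0 := by omega
        exact h2 h6 h7 (by omega)
      have hs : ∑ i : Fin (k * r), 2 ≤
          ∑ i, (ind (σ i) K a + ind (σ i) K b + ind (σ i) K c) := sum_le_sum fun i _ => hge i
      rw [sum_add_distrib, sum_add_distrib, hsa, hsb, hsc] at hs
      simp only [sum_const, card_univ, Fintype.card_fin, smul_eq_mul] at hs
      have hs2 : r * 2 ≤ bt w {a} K + bt w {b} K + bt w {c} K := by
        have : k * (r * 2) ≤ k * (bt w {a} K + bt w {b} K + bt w {c} K) := by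
          calc k * (r * 2) = k * r * 2 := by ring
            _ ≤ _ := hs
            _ = _ := by ring
        exact Nat.le_of_mul_le_mul_left this hk
      have hctY : ct w Y = bt w {a} Y + bt w {b} Y + bt w {c} Y := by
        have hUY : U \ Y = K ∪ ({a} ∪ ({b} ∪ {c})) := by
          rw [hS.un]
          ext x
          simp only [mem_sdiff, mem_union, mem_insert, mem_singleton]
          constructor
          · rintro ⟨(h1 | h1) | h1, h2⟩
            · exact Or.inl h1
            · exact absurd h1 h2
            · exact Or.inr h1
          · rintro (h1 | h1)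
            · exact ⟨Or.inl (Or.inl h1), fun h2 => (disjoint_left.mp hS.xy) h1 h2⟩
            · refine ⟨Or.inr h1, fun h2 => ?_⟩
              rcases h1 with rfl | rfl | rfl
              · exact hS.aY h2
              · exact hS.bY h2
              · exact hS.cY h2
        have hd1 : Disjoint K ({a} ∪ ({b} ∪ {c})) := by
          simp [hS.aX, hS.bX, hS.cX]
        have hd2 : Disjoint ({a} : Finset V) ({b} ∪ {c}) := by simp [hS.ab, hS.ac]
        have hd3 : Disjoint ({b} : Finset V) {c} := by simpa using hS.bc
        rw [h.ct_eq, hUY, bt_union_right w Y hd1, bt_union_right w Y hd2,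
          bt_union_right w Y hd3, bt_comm w h.symm Y K, bt_comm w h.symm Y {a},
          bt_comm w h.symm Y {b}, bt_comm w h.symm Y {c}]
        have h0 : bt w K Y = 0 := (bt_eq_zero w).mpr hS.zero
        rw [h0]
        ring
      have hYct := hNT Y hYU hYo hY3 (by omega)
      have h1 := hle a haU hS.aX hS.aY
      have h2 := hle b hbU hS.bX hS.bY
      have h3 := hle c hcU hS.cX hS.cY
      omega
  · by_cases hex : ∃ i, ind (σ i) K a = 1 ∧ ind (σ i) K b = 1
    · obtain ⟨i, h1, h2⟩ := hex
      have h3 : ind (σ i) K c = 0 := by
        have h4 := hpar i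
        have h5 := ind_le (σ i) K c
        omega
      rw [ind_eq_one] at h1 h2
      rw [ind_eq_zero] at h3
      refine ⟨σ i, ?_, h1, h2⟩
      intro v hv
      have hvU : v ∈ U := by
        simp only [mem_insert] at hv
        rcases hv with rfl | rfl | hv
        · exact haU
        · exact hbU
        · exact hKU hv
      refine ⟨?_, (hPM i).invol v, (hPM i).adj v hvU⟩
      simp only [mem_insert] at hv
      rcases hv with rfl | rfl | hv
      · simp [h1]
      · simp [h2]
      · have hmU := (hPM i).mem h hvU
        rw [hS.un] at hmU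
        simp only [mem_union, mem_insert, mem_singleton] at hmU ⊢
        rcases hmU with (h4 | h4) | h4 | h4 | h4
        · exact Or.inr (Or.inr h4)
        · exact absurd (hS.zero v hv _ h4) ((hPM i).adj v hvU)
        · exact Or.inl h4
        · exact Or.inr (Or.inl h4)
        · exfalso
          apply h3
          rw [← h4, (hPM i).invol]
          exact hv
    · exfalso
      push Not at hex
      have heq : ∀ i, ind (σ i) K a + ind (σ i) K b = ind (σ i) K c := by
        intro i
        have h1 := hpar i
        have h2 := hex i
        have h3 := ind_le (σ i) K a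
        have h4 := ind_le (σ i) K b
        have h5 := ind_le (σ i) K c
        by_cases ha : ind (σ i) K a = 1
        · have := h2 ha
          omega
        · omega
      have hs : ∑ i, (ind (σ i) K a + ind (σ i) K b) = ∑ i, ind (σ i) K c :=
        sum_congr rfl fun i _ => heq i
      rw [sum_add_distrib, hsa, hsb, hsc, ← mul_add] at hs
      have hs2 : bt w {a} K + bt w {b} K = bt w {c} K := Nat.eq_of_mul_eq_mul_left hk hs
      -- the cut of `insert c K`
      have hXU : insert c K ⊆ U := insert_subset hcU hKU
      have hXc : (insert c K).card = K.card + 1 := card_insert_of_notMem hS.cX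
      have hct := hNT (insert c K) hXU (by
        rw [hXc, Nat.odd_iff]
        rw [Nat.even_iff] at hKe
        omega) (by omega) (by omega)
      have hX : insert c K = K ∪ {c} := by
        ext x
        simp
      have hd0 : Disjoint K {c} := by simpa using hS.cX
      have hUX : U \ (insert c K) = Y ∪ ({a} ∪ {b}) := by
        rw [hS.un]
        ext x
        simp only [mem_sdiff, mem_union, mem_insert, mem_singleton]
        constructor
        · rintro ⟨(h1 | h1) | h1 | h1 | h1, h2⟩
          · exact absurd (Or.inr h1) h2
          · exact Or.inl h1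
          · exact Or.inr (Or.inl h1)
          · exact Or.inr (Or.inr h1)
          · exact absurd (Or.inl h1) h2
        · rintro (h1 | h1 | h1)
          · refine ⟨Or.inl (Or.inr h1), ?_⟩
            rintro (rfl | h2)
            · exact hS.cY h1
            · exact (disjoint_left.mp hS.xy) h2 h1
          · subst h1
            refine ⟨Or.inr (Or.inl rfl), ?_⟩
            rintro (h2 | h2)
            · exact hS.ac h2
            · exact hS.aX h2
          · subst h1
            refine ⟨Or.inr (Or.inr (Or.inl rfl)), ?_⟩
            rintro (h2 | h2)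
            · exact hS.bc h2
            · exact hS.bX h2
      have hd1 : Disjoint Y ({a} ∪ {b}) := by simp [hS.aY, hS.bY]
      have hd2 : Disjoint ({a} : Finset V) {b} := by simpa using hS.ab
      have h0 : bt w K Y = 0 := (bt_eq_zero w).mpr hS.zero
      have hdeg : bt w {c} U = r := by
        have := h.bt_deg' (X := {c}) (by simpa using hcU)
        simpa using this
      have hUd : U = (K ∪ {c}) ∪ (Y ∪ ({a} ∪ {b})) := by
        rw [← hX, ← hUX, union_sdiff_of_subset hXU]
      have hd4 : Disjoint (K ∪ {c}) (Y ∪ ({a} ∪ {b})) := by
        rw [← hX, ← hUX]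
        exact disjoint_sdiff
      have hcc : bt w {c} {c} = 0 := by rw [bt_pair, h.irr]
      rw [hUd, bt_union_right w {c} hd4, bt_union_right w {c} hd0, hcc] at hdeg
      have hct2 : ct w (insert c K) = bt w {a} K + bt w {b} K +
          bt w {c} (Y ∪ ({a} ∪ {b})) := by
        rw [h.ct_eq, hUX, hX, bt_union_left w hd0, bt_union_right w K hd1,
          bt_union_right w K hd2, h0, bt_comm w h.symm K {a}, bt_comm w h.symm K {b}]
        ring
      omega

end Pool.Agent.Helper56.RL
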